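import Pool.Agent.Lib.MP_1a91b9_nuT.S9.Defs
import Pool.Agent.Lib.MP_1a91b9_nuT.BaseK
import Pool.Agent.Lib.MP_1a91b9_nt.Residue

/-!
# JOB QA: the minimal model at a place not above 3

`W = E ⊗ N_v = ⟨0,0,1,0,0⟩` is integral and `Δ(W) = -27` is a unit of `O_v`. Let `C = minChange`,
`W' = C • W = minModel`, minimal (`exists_isMinimal ..choose_spec`). `W = C⁻¹ • W'` is integral, so
by maximality (`IsMinimal.val_Δ_maximal`) the value of `Δ(W')` is at least that of `Δ(W)`, i.e. 1, so
`Δ(W')` is a unit; `Δ(W') = u⁻¹^12 Δ(W)` (`variableChange_Δ`) gives `v(u)^12 = 1`, `v(u) = 1`.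
(See `Pool.Agent.Lib.MP_1a91b9_nt.GoodModel` for a similar argument; the valuation of the maximal ideal of `O_v`
is 1 exactly on the units, `adicCompletionIntegers.isUnit_iff_valued_eq_one`.)
-/

set_option autoImplicit false

namespace Pool.Agent.Lib.MP_1a91b9_nuT.S9

variable [CD]

open NumberField IsDedekindDomain WeierstrassCurve
open scoped Classical

variable {N : Type*} [Field N] [NumberField N]

instance minModel_isMinimal (W : WeierstrassCurve N) (v : HeightOneSpectrum (𝓞 N)) :
    IsMinimal (v.adicCompletionIntegers N) (minModel W v) :=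
  ((W.baseChange (v.adicCompletion N)).exists_isMinimal (v.adicCompletionIntegers N)).choose_spec


end Pool.Agent.Lib.MP_1a91b9_nuT.S9
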