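import Pool.Agent.Lib.MP_1a91b9_nuT.BaseK
import Pool.Agent.Lib.MP_1a91b9_nuT.S9.KB

/-!
# JOB MB: coboundaries are in `shaCoc`; cocycles are trivial on an open subgroup

(cob_le) locally constant: `P = (x, y)` (the zero point is clear); the subgroup `H` of `σ` fixing
`x` and `y` is open (`IntermediateField.fixingSubgroup_isOpen` for the finite extension
`IntermediateField.adjoin k {x, y}`), and `σ P - P` is constant on the cosets `σ H`
(`IsLocallyConstant.iff_exists_open`, left multiplication is a homeomorphism). Cocycle identity: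
`Affine.Point.map_map`. Trivial over every `L`: the point `i P`,
`i (τ P - P) = σ (i P) - i P` when `i (τ x) = σ (i x)` (`Affine.Point.map_map`).
(exists_open) `{τ | c τ = c 1}` is open and contains 1; `krullTopology_mem_nhds_one_iff`;
and `c 1 = 0`.
-/

set_option autoImplicit false

namespace Pool.Agent.Lib.MP_1a91b9_nuT.S9

variable [CD]

open WeierstrassCurve NumberField IsDedekindDomain
open scoped Classical

open scoped Pointwise in
private theorem mb1_lc {k : Type*} [Field k] [CharZero k] (W : WeierstrassCurve k)
    (P : Pts W (AlgebraicClosure k)) :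
    IsLocallyConstant fun σ : Gal k =>
      Affine.Point.map (σ : AlgebraicClosure k →ₐ[k] AlgebraicClosure k) P - P := by
  rw [IsLocallyConstant.iff_exists_open]
  intro σ
  rcases P with _ | ⟨x, y, h⟩
  · exact ⟨Set.univ, isOpen_univ, Set.mem_univ _, fun τ _ => rfl⟩
  · have hx : IsIntegral k x := (Algebra.IsAlgebraic.isAlgebraic x).isIntegral
    have hy : IsIntegral k y := (Algebra.IsAlgebraic.isAlgebraic y).isIntegral
    let M : IntermediateField k (AlgebraicClosure k) := IntermediateField.adjoin k {x, y}
    have hM : FiniteDimensional k M :=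
      IntermediateField.finiteDimensional_adjoin (by
        rintro z (rfl | hz)
        · exact hx
        · rw [Set.mem_singleton_iff] at hz
          exact hz ▸ hy)
    have hxM : x ∈ M := IntermediateField.subset_adjoin k _ (by simp)
    have hyM : y ∈ M := IntermediateField.subset_adjoin k _ (by simp)
    refine ⟨σ • (M.fixingSubgroup : Set (Gal k)),
      (IntermediateField.fixingSubgroup_isOpen M).smul σ,
      ⟨1, one_mem _, by simp⟩, ?_⟩
    rintro _ ⟨τ, hτ, rfl⟩
    have hτ' : ∀ z ∈ M, τ z = z := (IntermediateField.mem_fixingSubgroup_iff M τ).1 hτ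
    congr 1
    rw [Affine.Point.map_some, Affine.Point.map_some]
    rw [Affine.Point.some.injEq]
    exact ⟨congrArg σ (hτ' x hxM), congrArg σ (hτ' y hyM)⟩

theorem cob_le_coc {k : Type*} [Field k] [CharZero k] (W : WeierstrassCurve k) :
    cob W ≤ coc W := by
  rintro c ⟨P, hP⟩
  refine ⟨?_, fun σ τ => ?_⟩
  · have : c = fun σ : Gal k =>
        Affine.Point.map (σ : AlgebraicClosure k →ₐ[k] AlgebraicClosure k) P - P := funext hP
    rw [this]
    exact mb1_lc W P
  · rw [hP, hP, hP, _root_.map_sub, Affine.Point.map_map]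
    have : ((σ * τ : Gal k) : AlgebraicClosure k →ₐ[k] AlgebraicClosure k) =
        (σ : AlgebraicClosure k →ₐ[k] AlgebraicClosure k).comp
          (τ : AlgebraicClosure k →ₐ[k] AlgebraicClosure k) := rfl
    rw [this]
    abel

theorem cob_le_trivOver {k L : Type*} [Field k] [Field L] [Algebra k L]
    (W : WeierstrassCurve k) : cob W ≤ trivOver W L := by
  rintro c ⟨P, hP⟩ i
  refine ⟨Affine.Point.map i P, fun σ τ h => ?_⟩
  rw [hP τ, _root_.map_sub, Affine.Point.map_map, Affine.Point.map_map]
  congr 2
  congr 1
  ext x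
  exact h x

theorem cob_le_shaCoc {N : Type*} [Field N] [NumberField N] (W : WeierstrassCurve N) :
    cob W ≤ shaCoc W := by
  refine le_inf (le_inf (cob_le_coc W) ?_) ?_
  · exact le_iInf fun v => cob_le_trivOver W
  · exact le_iInf fun v => cob_le_trivOver W


end Pool.Agent.Lib.MP_1a91b9_nuT.S9
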