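import Pool.Agent.Lib.MP_1a91b9_nt.Residue
import Mathlib

/-!
# JOB QG1: close points; JOB QG2: finiteness of balls modulo small balls; JOB QG3: covering

(close) `P = (x₁,y₁)`, `Q = (x₂,y₂)`, `P ≠ Q`. `c = 2 y₁ + 1`, `c² = 4x₁³+1`: `v(c)² ≥ ρ = v(3)`
(`tame_bound` if `v(x₁) ≤ 1`; if `v(x₁) > 1`, `v(c)² = v(x₁)³ > 1`). `-Q = (x₂, -y₂-1)`.
`y₁ + y₂ + 1 = c + (y₂ - y₁)` has value `v(c)` since `v(y₁-y₂)² < ρ`. So `y₁ + y₂ + 1 ≠ 0`, and if
`x₁ = x₂` then `y₁ = y₂` (the only other point is `-P`, `y₂ = -y₁-1`), excluded. So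
`P - Q = P + (-Q)` has x-coordinate `l² - x₁ - x₂` with `l = (y₁ + y₂ + 1)/(x₁ - x₂)`,
`v(l)² = v(c)²/v(x₁-x₂)² ≥ ρ/v(x₁-x₂)² > M ≥ v(x₁), v(x₂)`.
(finite_ball) choose a uniformizer `π ∈ N` (`valuation_exists_uniformizer`) and `a` with `exp a ≥ M`;
`x π^a` is integral; the residue ring `O_N / v^b` is finite and every element of `O_v` is congruent to an
element of `O_N` up to `exp (-b)`: density of `N` in `N_v` and
`HeightOneSpectrum.exists_valuation_sub_lt_of_integer`; or compactness.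
(cover) `v(y) ≤ max 1 M²`-type bound for `v(x) ≤ M`, `1 ≤ M`: `v(y)² ≤ max(v(y), M³)`. Choose for each pair of
classes of `(x, y)` (finitely many) a point of the curve in it, if there is one; plus the point 0.
-/

set_option autoImplicit false

namespace Pool.Agent.Lib.MP_1a91b9_nuT.S9

open NumberField IsDedekindDomain WithZero WeierstrassCurve
open scoped Classical

variable {N : Type*} [Field N] [NumberField N]


private theorem qg2_int (v : HeightOneSpectrum (𝓞 N)) (n : ℕ) :
    ∃ S : Finset (v.adicCompletion N), ∀ x : v.adicCompletion N, Valued.v x ≤ 1 →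
      ∃ s ∈ S, Valued.v (x - s) ≤ exp (-(n : ℤ)) := by
  have hfin : Finite (𝓞 N ⧸ v.asIdeal ^ n) :=
    Ideal.finiteQuotientOfFreeOfNeBot _ (pow_ne_zero n v.ne_bot)
  have := Fintype.ofFinite (𝓞 N ⧸ v.asIdeal ^ n)
  let g : (𝓞 N ⧸ v.asIdeal ^ n) → v.adicCompletion N := fun q =>
    algebraMap N (v.adicCompletion N) (algebraMap (𝓞 N) N (Quotient.out q))
  refine ⟨Finset.univ.image g, fun x hx => ?_⟩
  obtain ⟨c, hc⟩ := HeightOneSpectrum.valuedAdicCompletion_surjective N v (exp (-(n : ℤ)))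
  have hcr : Valued.v.restrict c ≠ 0 := by
    rw [Ne, Valuation.restrict_eq_zero_iff, hc]
    exact exp_ne_zero
  have hO : IsOpen ((fun y : v.adicCompletion N => x - y) ⁻¹'
      {z : v.adicCompletion N | Valued.v.restrict z ≤ Valued.v.restrict c}) :=
    (Valued.isOpen_closedBall _ hcr).preimage (continuous_const.sub continuous_id)
  obtain ⟨z, hz⟩ := (HeightOneSpectrum.denseRange_algebraMap N v).exists_mem_open hO
    ⟨x, by
      rw [Set.mem_preimage, sub_self, Set.mem_ofPred_eq, map_zero]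
      exact zero_le⟩
  rw [Set.mem_preimage, Set.mem_ofPred_eq, Valuation.restrict_le_iff, hc] at hz
  have hn1 : exp (-(n : ℤ)) ≤ (1 : ℤᵐ⁰) := by
    rw [← exp_zero, exp_le_exp]
    omega
  have hvz : v.valuation N z ≤ 1 := by
    have e1 : Valued.v (algebraMap N (v.adicCompletion N) z) = v.valuation N z :=
      HeightOneSpectrum.valuedAdicCompletion_eq_valuation' v _
    rw [← e1]
    have e2 : algebraMap N (v.adicCompletion N) z =
      x - (x - algebraMap N (v.adicCompletion N) z) := by rw [sub_sub_cancel]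
    rw [e2]
    exact Valuation.map_sub_le _ hx (hz.trans hn1)
  obtain ⟨r, hr⟩ := v.exists_valuation_sub_lt_of_integer hvz (Units.mk0 (exp (-(n : ℤ))) exp_ne_zero)
  rw [Units.val_mk0] at hr
  refine ⟨g (Ideal.Quotient.mk _ r), Finset.mem_image_of_mem g (Finset.mem_univ _), ?_⟩
  have hq : r - Quotient.out (Ideal.Quotient.mk (v.asIdeal ^ n) r) ∈ v.asIdeal ^ n := by
    rw [← Ideal.Quotient.mk_eq_mk_iff_sub_mem]
    exact (Quotient.out_eq (Ideal.Quotient.mk (v.asIdeal ^ n) r)).symm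
  have hq' : v.valuation N (algebraMap (𝓞 N) N
      (r - Quotient.out (Ideal.Quotient.mk (v.asIdeal ^ n) r))) ≤ exp (-(n : ℤ)) := by
    rw [HeightOneSpectrum.valuation_of_algebraMap, HeightOneSpectrum.intValuation_le_pow_iff_mem]
    exact hq
  have e3 : x - g (Ideal.Quotient.mk _ r) = (x - algebraMap N (v.adicCompletion N) z) +
      (algebraMap N (v.adicCompletion N) (-(algebraMap (𝓞 N) N r - z)) +
        algebraMap N (v.adicCompletion N) (algebraMap (𝓞 N) N
          (r - Quotient.out (Ideal.Quotient.mk (v.asIdeal ^ n) r)))) := by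
    show x - algebraMap N (v.adicCompletion N) (algebraMap (𝓞 N) N
      (Quotient.out (Ideal.Quotient.mk (v.asIdeal ^ n) r))) = _
    rw [map_sub (algebraMap (𝓞 N) N), ← map_add]
    have e4 : -(algebraMap (𝓞 N) N r - z) + (algebraMap (𝓞 N) N r - algebraMap (𝓞 N) N
        (Quotient.out (Ideal.Quotient.mk (v.asIdeal ^ n) r))) =
        z - algebraMap (𝓞 N) N (Quotient.out (Ideal.Quotient.mk (v.asIdeal ^ n) r)) := by ring
    rw [e4, map_sub]
    exact (sub_add_sub_cancel _ _ _).symm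
  have e5 : Valued.v (algebraMap N (v.adicCompletion N) (-(algebraMap (𝓞 N) N r - z))) ≤
      exp (-(n : ℤ)) := by
    have e6 : Valued.v (algebraMap N (v.adicCompletion N) (-(algebraMap (𝓞 N) N r - z))) =
      v.valuation N (-(algebraMap (𝓞 N) N r - z)) :=
      HeightOneSpectrum.valuedAdicCompletion_eq_valuation' v _
    rw [e6, Valuation.map_neg]
    exact hr.le
  have e7 : Valued.v (algebraMap N (v.adicCompletion N) (algebraMap (𝓞 N) N
          (r - Quotient.out (Ideal.Quotient.mk (v.asIdeal ^ n) r)))) ≤ exp (-(n : ℤ)) := by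
    have e8 : Valued.v (algebraMap N (v.adicCompletion N) (algebraMap (𝓞 N) N
          (r - Quotient.out (Ideal.Quotient.mk (v.asIdeal ^ n) r)))) =
      v.valuation N (algebraMap (𝓞 N) N
          (r - Quotient.out (Ideal.Quotient.mk (v.asIdeal ^ n) r))) :=
      HeightOneSpectrum.valuedAdicCompletion_eq_valuation' v _
    rw [e8]
    exact hq'
  rw [e3]
  exact Valuation.map_add_le _ hz (Valuation.map_add_le _ e5 e7)

/-- JOB QG2 -/
theorem finite_ball (v : HeightOneSpectrum (𝓞 N)) (M e : ℤᵐ⁰) (he : e ≠ 0) :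
    ∃ S : Finset (v.adicCompletion N), ∀ x : v.adicCompletion N, Valued.v x ≤ M →
      ∃ s ∈ S, Valued.v (x - s) ≤ e := by
  rcases eq_or_ne M 0 with rfl | hM
  · refine ⟨{0}, fun x hx => ⟨0, Finset.mem_singleton_self _, ?_⟩⟩
    rw [sub_zero]
    exact hx.trans zero_le
  · obtain ⟨p, hp⟩ := HeightOneSpectrum.valuedAdicCompletion_surjective N v M
    have hp0 : p ≠ 0 := by
      intro h
      rw [h, map_zero] at hp
      exact hM hp.symm
    obtain ⟨S, hS⟩ := qg2_int v (log M - log e).toNat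
    refine ⟨S.image fun s => p * s, fun x hx => ?_⟩
    have h1 : Valued.v (x / p) ≤ 1 := by
      rw [map_div₀, hp]
      exact div_le_one_of_le₀ hx zero_le
    obtain ⟨s, hs, hs2⟩ := hS _ h1
    refine ⟨p * s, Finset.mem_image_of_mem _ hs, ?_⟩
    have e1 : x - p * s = p * (x / p - s) := by
      rw [mul_sub, mul_div_cancel₀ _ hp0]
    rw [e1, map_mul, hp]
    refine (mul_le_mul_right hs2 _).trans ?_
    rw [← exp_log hM, ← exp_log he, ← exp_add, exp_le_exp]
    rw [log_exp, log_exp]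
    omega


end Pool.Agent.Lib.MP_1a91b9_nuT.S9
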